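import Pool.Agent.E8helper61.SI.Stm2
import Pool.Agent.E8helper61.SI.Main
import Pool.Agent.E8helper97.SI.Far
import Pool.Agent.E8helper9.SI.Cnt

/-! Project SI2, piece RICH. -/

set_option autoImplicit false

open Finset

namespace Pool.Agent.E8helper71.SI

open Pool.Agent.E8helper61.SI

theorem rich_aux (hC : CountStatement) : RichStatement := by
  intro n r k a R hR
  classical
  set Ω := Ed (univ : Finset (Fin n)) with hΩ
  have hEd : ∀ S : Finset (Fin n), Ed S ⊆ Ω := fun S => Ed_mono (subset_univ S)
  have hΩc : Ω.card = n.choose 2 := by rw [hΩ, card_Ed, card_univ, Fintype.card_fin]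
  let SS : ℕ → Finset (Finset (Fin n)) := fun j =>
    ((univ : Finset (Fin n)).powersetCard r).filter (fun S => (S \ R).card = j)
  let Far : ℕ → Finset (Finset (Finset (Fin n))) := fun j =>
    (SS j).biUnion (fun S => Ω.powerset.filter (fun x => Disjoint x (Ed R ∪ Ed S)))
  let CC : Finset (Fin n) → Finset (Finset (Finset (Fin n))) := fun T =>
    Ω.powerset.filter (fun x => Disjoint x (Ed R) ∧ ∀ v ∈ T, (x ∩ star v R).card ≤ k)
  have hcov : Ω.powerset.filter (fun x => Disjoint x (Ed R) ∧ r + a ≤ (Wd r x).card) ⊆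
      (Ioc k r).biUnion Far ∪ ((univ \ R).powersetCard a).biUnion CC := by
    intro y hy
    rw [mem_filter, mem_powerset] at hy
    obtain ⟨hyΩ, hyR, hyW⟩ := hy
    rw [mem_union]
    by_cases hfar : ∃ S, Ind r y S ∧ k < (S \ R).card
    · left
      obtain ⟨S, ⟨hSc, hSd⟩, hlt⟩ := hfar
      rw [mem_biUnion]
      refine ⟨(S \ R).card, mem_Ioc.2 ⟨hlt, (card_le_card sdiff_subset).trans hSc.le⟩, ?_⟩
      rw [mem_biUnion]
      refine ⟨S, mem_filter.2 ⟨mem_powersetCard.2 ⟨subset_univ _, hSc⟩, rfl⟩, ?_⟩
      rw [mem_filter, mem_powerset, disjoint_union_right]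
      exact ⟨hyΩ, hyR, hSd⟩
    · right
      push Not at hfar
      have hcardW : a ≤ (Wd r y \ R).card := by
        have h3 := le_card_sdiff R (Wd r y)
        omega
      obtain ⟨T, hTsub, hTc⟩ := exists_subset_card_eq hcardW
      rw [mem_biUnion]
      refine ⟨T, mem_powersetCard.2 ⟨?_, hTc⟩, ?_⟩
      · exact hTsub.trans (sdiff_subset_sdiff (subset_univ _) subset_rfl)
      · rw [mem_filter, mem_powerset]
        refine ⟨hyΩ, hyR, ?_⟩
        intro v hv
        have hvW := hTsub hv
        rw [mem_sdiff] at hvW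
        obtain ⟨S, hS, hvS⟩ := (mem_filter.1 hvW.1).2
        obtain ⟨hSc, hSd⟩ := hS
        have hsub : y ∩ star v R ⊆ (R \ S).image (fun u => ({u, v} : Finset (Fin n))) := by
          intro e he
          rw [mem_inter] at he
          obtain ⟨u, hu, rfl⟩ := mem_star.1 he.2
          refine mem_image.2 ⟨u, mem_sdiff.2 ⟨hu, ?_⟩, rfl⟩
          intro huS
          have huv : u ≠ v := by
            rintro rfl
            exact hvW.2 hu
          apply (disjoint_left.1 hSd) he.1
          refine mem_Ed.2 ⟨?_, card_pair huv⟩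
          intro z hz
          simp only [mem_insert, mem_singleton] at hz
          rcases hz with rfl | rfl
          · exact huS
          · exact hvS
        calc (y ∩ star v R).card ≤ ((R \ S).image (fun u => ({u, v} : Finset (Fin n)))).card :=
              card_le_card hsub
          _ ≤ (R \ S).card := card_image_le
          _ = (S \ R).card := card_sdiff_comm (by omega)
          _ ≤ k := hfar S ⟨hSc, hSd⟩
  have hcard := (card_le_card hcov).trans (card_union_le _ _)
  have hfarc : ((Ioc k r).biUnion Far).card ≤ ∑ j ∈ Ioc k r, (Far j).card := card_biUnion_le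
  have hccc : (((univ \ R).powersetCard a).biUnion CC).card ≤
      ∑ T ∈ (univ \ R).powersetCard a, (CC T).card := card_biUnion_le
  -- the far part
  have hF : ∀ j ∈ Ioc k r, ((Far j).card : ℝ) ≤
      2 ^ (n.choose 2) / 2 ^ (r.choose 2) * pw n r j := by
    intro j hj
    have hjr : j ≤ r := (mem_Ioc.1 hj).2
    have h1 : (Far j).card * 2 ^ (r.choose 2 + (j * (r - j) + j.choose 2)) ≤
        (r.choose j * (n - r).choose j) * 2 ^ (n.choose 2) := by
      calc (Far j).card * 2 ^ (r.choose 2 + (j * (r - j) + j.choose 2)) ≤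
          (∑ S ∈ SS j, (Ω.powerset.filter (fun x => Disjoint x (Ed R ∪ Ed S))).card) *
            2 ^ (r.choose 2 + (j * (r - j) + j.choose 2)) :=
            Nat.mul_le_mul_right _ card_biUnion_le
        _ = ∑ S ∈ SS j, (Ω.powerset.filter (fun x => Disjoint x (Ed R ∪ Ed S))).card *
            2 ^ (r.choose 2 + (j * (r - j) + j.choose 2)) := by rw [sum_mul]
        _ = ∑ S ∈ SS j, 2 ^ (n.choose 2) := by
            refine sum_congr rfl fun S hS => ?_
            obtain ⟨hS1, hS2⟩ := mem_filter.1 hS
            have hSc := (mem_powersetCard.1 hS1).2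
            rw [← Pool.Agent.E8helper97.SI.card_union_ed hR hSc hS2 hjr, ← hΩc]
            exact Pool.Agent.E8helper97.SI.count_disj Ω _ (union_subset (hEd _) (hEd _))
        _ = (SS j).card * 2 ^ (n.choose 2) := by rw [sum_const, smul_eq_mul]
        _ ≤ _ := by
            refine Nat.mul_le_mul_right _ ?_
            have := Pool.Agent.E8helper97.SI.count_S (V := Fin n) (j := j) hR
            rwa [Fintype.card_fin] at this
    have h2 : ((Far j).card : ℝ) * (2 ^ (r.choose 2) * 2 ^ (j * (r - j) + j.choose 2)) ≤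
        (r.choose j * (n - r).choose j) * 2 ^ (n.choose 2) := by
      rw [← pow_add]
      exact_mod_cast h1
    unfold pw
    rw [div_mul_div_comm, le_div_iff₀ (by positivity)]
    linarith
  have hC1 : ∀ T ∈ (univ \ R).powersetCard a, ((CC T).card : ℝ) ≤
      2 ^ (n.choose 2) * (Bs r k) ^ a / (2 ^ (r.choose 2) * (2 ^ r) ^ a) := by
    intro T hT
    rw [mem_powersetCard] at hT
    have hdis : Disjoint T R := by
      rw [disjoint_left]
      intro v hv
      exact (mem_sdiff.1 (hT.1 hv)).2
    have h5 := cc_card (k := k) hC R T hR hdis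
    rw [hT.2] at h5
    rw [le_div_iff₀ (by positivity)]
    exact_mod_cast h5
  have hcT : ((univ \ R).powersetCard a).card = (n - r).choose a := by
    rw [card_powersetCard, card_sdiff_of_subset (subset_univ _), card_univ,
      Fintype.card_fin, hR]
  have h6 : ((Ω.powerset.filter (fun x => Disjoint x (Ed R) ∧ r + a ≤ (Wd r x).card)).card : ℝ) ≤
      (∑ j ∈ Ioc k r, ((Far j).card : ℝ)) +
        ∑ T ∈ (univ \ R).powersetCard a, ((CC T).card : ℝ) := by
    have h7 := hcard.trans (add_le_add hfarc hccc)
    exact_mod_cast h7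
  refine h6.trans ((add_le_add (sum_le_sum hF) (sum_le_sum hC1)).trans (le_of_eq ?_))
  rw [← mul_sum, sum_const, hcT, nsmul_eq_mul]
  unfold qr
  field_simp

theorem rich : RichStatement := by
  have h := rich_aux Pool.Agent.E8helper9.SI.cnt
  exact h

end Pool.Agent.E8helper71.SI
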