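import Pool.Agent.E8helper61.SI.Stm3

set_option autoImplicit false

open Finset Filter Topology

namespace Pool.Agent.E8helper71.SI

open Pool.Agent.E8helper61.SI

theorem evA {a ε : ℝ} (ha : 0 < a) (hε : 0 < ε) :
    ∀ᶠ y : ℝ in atTop, 48 * y ^ 6 * Real.exp (-(a * y)) ≤ ε := by
  have h1 : Tendsto (fun y : ℝ => a * y) atTop atTop := tendsto_id.const_mul_atTop ha
  have h2 := ((Real.tendsto_pow_mul_exp_neg_atTop_nhds_zero 6).comp h1).const_mul (48 / a ^ 6)
  rw [mul_zero] at h2
  filter_upwards [h2.eventually_lt_const hε] with y hy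
  simp only [Function.comp_apply] at hy
  have e : 48 / a ^ 6 * ((a * y) ^ 6 * Real.exp (-(a * y))) = 48 * y ^ 6 * Real.exp (-(a * y)) := by
    field_simp
  rw [e] at hy
  exact hy.le

theorem evB {b : ℝ} (hb : 0 < b) (C : ℝ) :
    ∀ᶠ y : ℝ in atTop, 12 * Real.log y + C ≤ y * b := by
  have h1 := Real.isLittleO_log_id_atTop.bound (show 0 < b / 24 by positivity)
  filter_upwards [h1, eventually_ge_atTop (0 : ℝ), eventually_ge_atTop (2 * C / b)] with y h2 h3 h4
  rw [Real.norm_eq_abs, id, Real.norm_of_nonneg h3] at h2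
  have h5 := le_abs_self (Real.log y)
  rw [div_le_iff₀ hb] at h4
  nlinarith

theorem num3 : Num3Statement := by
  intro ε hε
  have hl2 : 0 < Real.log 2 := Real.log_pos (by norm_num)
  have hA := evA (a := Real.log 2 / 32) (ε := min ε 1) (by positivity) (lt_min hε one_pos)
  have hB := evB (b := Real.log 2 / 4) (by positivity) (2 * |Real.log ε| + 2 * Real.log 12 + 1)
  have hs : Tendsto (fun t : ℕ => √(t : ℝ)) atTop atTop :=
    Real.tendsto_sqrt_atTop.comp tendsto_natCast_atTop_atTop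
  obtain ⟨t0, ht0⟩ := eventually_atTop.1 ((hs.eventually hA).and (hs.eventually hB))
  refine ⟨max t0 2, fun t ht σ hσ => ?_⟩
  obtain ⟨hA', hB'⟩ := ht0 t (le_trans (le_max_left _ _) ht)
  have ht2 : 2 ≤ t := le_trans (le_max_right _ _) ht
  have hT2 : (2 : ℝ) ≤ (t : ℝ) := by exact_mod_cast ht2
  set T : ℝ := (t : ℝ) with hT
  have hT0 : 0 < T := by linarith
  set y : ℝ := √T with hy
  have hy2 : y ^ 2 = T := Real.sq_sqrt hT0.le
  have hy0 : 0 < y := Real.sqrt_pos.2 hT0
  have hy1 : 1 ≤ y := by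
    by_contra hlt
    rw [not_le] at hlt
    nlinarith
  set z : ℝ := √y with hz
  have hz2 : z ^ 2 = y := Real.sq_sqrt hy0.le
  have hz0 : 0 < z := Real.sqrt_pos.2 hy0
  have hz1 : 1 ≤ z := by
    by_contra hlt
    rw [not_le] at hlt
    nlinarith
  have hzy : z ≤ y := by nlinarith
  set κ : ℝ := (T - 1) * (1 / z) * Real.log 2 / 2 with hκ
  have hκ1 : Real.log 2 / 32 * y ≤ κ / 8 := by
    have h1 : y / 2 ≤ (T - 1) * (1 / z) := by
      rw [mul_one_div, le_div_iff₀ hz0]
      nlinarith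
    rw [hκ]
    nlinarith
  set q : ℝ := 24 * T ^ 2 * Real.exp (-(κ / 8)) with hq
  have hq0 : 0 ≤ q := by positivity
  have hq1 : T * (2 * q) ≤ min ε 1 := by
    refine le_trans ?_ hA'
    have e : T * (2 * q) = 48 * y ^ 6 * Real.exp (-(κ / 8)) := by
      rw [hq, ← hy2]
      ring
    rw [e]
    refine mul_le_mul_of_nonneg_left ?_ (by positivity)
    apply Real.exp_le_exp.2
    linarith
  have hqε : T * (2 * q) ≤ ε := hq1.trans (min_le_left _ _)
  have hq1' : q ≤ 1 := by
    have := hq1.trans (min_le_right _ _)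
    nlinarith
  set L : ℝ := Real.log (12 * T ^ 2) with hL
  have hL0 : 0 ≤ L := Real.log_nonneg (by nlinarith)
  have hL1 : L = Real.log 12 + 2 * Real.log T := by
    rw [hL, Real.log_mul (by norm_num) (by positivity), Real.log_pow]
    norm_num
  have hlT : Real.log T = 2 * Real.log y := by
    rw [← hy2, Real.log_pow]
    norm_num
  have hly : 0 ≤ Real.log y := Real.log_nonneg hy1
  have hE : (Real.exp ((T - 1) * (1 / T ^ 3) / 2)) ^ t ≤ 2 := by
    rw [← Real.exp_nat_mul, ← hT]
    have h1 : T * ((T - 1) * (1 / T ^ 3) / 2) ≤ 1 / 2 := by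
      have : T * ((T - 1) * (1 / T ^ 3) / 2) = (T - 1) / (2 * T ^ 2) := by
        field_simp
      rw [this, div_le_iff₀ (by positivity)]
      nlinarith
    have h2 : (1 / 2 : ℝ) ≤ Real.log 2 := by linarith [Real.log_two_gt_d9]
    calc Real.exp (T * ((T - 1) * (1 / T ^ 3) / 2)) ≤ Real.exp (Real.log 2) :=
          Real.exp_le_exp.2 (h1.trans h2)
      _ = 2 := Real.exp_log (by norm_num)
  set B : ℝ := if 1 < 2 * σ then Real.exp (σ * (2 * L + 1)) else 0 with hBd
  have hB0 : 0 ≤ B := by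
    rw [hBd]
    split_ifs
    · positivity
    · exact le_rfl
  have hterm : ∀ i ∈ Icc 1 t, (12 * T * (T + σ)) ^ i *
      (if 2 * σ ≤ i then (Real.exp ((T - 1) * (1 / T ^ 3) / 2)) ^ t *
        Real.exp (-(κ * i / 8)) else 1) ≤ 2 * q + B := by
    intro i hi
    rw [Finset.mem_Icc] at hi
    obtain ⟨hi1, hi2⟩ := hi
    have hi1' : (1 : ℝ) ≤ (i : ℝ) := by exact_mod_cast hi1
    have hi2' : (i : ℝ) ≤ T := by rw [hT]; exact_mod_cast hi2
    split_ifs with hc
    · have h1 : 12 * T * (T + σ) ≤ 24 * T ^ 2 := by nlinarith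
      have h2 : (12 * T * (T + σ)) ^ i ≤ (24 * T ^ 2) ^ i :=
        pow_le_pow_left₀ (by positivity) h1 i
      have h3 : Real.exp (-(κ * i / 8)) = Real.exp (-(κ / 8)) ^ i := by
        rw [← Real.exp_nat_mul]
        congr 1
        ring
      have h4 : (12 * T * (T + σ)) ^ i * ((Real.exp ((T - 1) * (1 / T ^ 3) / 2)) ^ t *
          Real.exp (-(κ * i / 8))) ≤ (24 * T ^ 2) ^ i * (2 * Real.exp (-(κ / 8)) ^ i) := by
        rw [h3]
        refine mul_le_mul h2 (mul_le_mul_of_nonneg_right hE (by positivity)) (by positivity)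
          (by positivity)
      have h5 : (24 * T ^ 2) ^ i * (2 * Real.exp (-(κ / 8)) ^ i) = 2 * q ^ i := by
        rw [hq, mul_pow]
        ring
      have h6 : q ^ i ≤ q := pow_le_of_le_one hq0 hq1' (by omega)
      linarith
    · rw [not_le] at hc
      have hc1 : 1 < 2 * σ := by linarith
      have hBe : B = Real.exp (σ * (2 * L + 1)) := by
        rw [hBd, if_pos hc1]
      have h1 : 12 * T * (T + σ) ≤ Real.exp (L + σ / T) := by
        rw [Real.exp_add, hL, Real.exp_log (by positivity)]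
        have h2 : σ / T + 1 ≤ Real.exp (σ / T) := Real.add_one_le_exp _
        calc 12 * T * (T + σ) = 12 * T ^ 2 * (σ / T + 1) := by
              field_simp
              ring
          _ ≤ 12 * T ^ 2 * Real.exp (σ / T) := mul_le_mul_of_nonneg_left h2 (by positivity)
      have h2 : (12 * T * (T + σ)) ^ i ≤ Real.exp (L + σ / T) ^ i :=
        pow_le_pow_left₀ (by positivity) h1 i
      rw [← Real.exp_nat_mul] at h2
      have h3 : (i : ℝ) * (L + σ / T) ≤ σ * (2 * L + 1) := by
        have h4 : (i : ℝ) * L ≤ 2 * σ * L := mul_le_mul_of_nonneg_right hc.le hL0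
        have h5 : (i : ℝ) * (σ / T) ≤ σ := by
          rw [← mul_div_assoc, div_le_iff₀ hT0, mul_comm]
          exact mul_le_mul_of_nonneg_left hi2' hσ
        linarith [h4, h5]
      rw [mul_one, hBe]
      have := Real.exp_le_exp.2 h3
      linarith
  refine (Finset.sum_le_sum hterm).trans ?_
  rw [Finset.sum_const, Nat.card_Icc, nsmul_eq_mul, Nat.add_sub_cancel, ← hT, mul_add]
  refine add_le_add hqε ?_
  by_cases hσ1 : 1 < 2 * σ
  · have hσ0 : σ ≠ 0 := by
      rintro rfl
      norm_num at hσ1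
    rw [if_neg hσ0, hBd, if_pos hσ1]
    have e1 : T * Real.exp (σ * (2 * L + 1)) = Real.exp (Real.log T + σ * (2 * L + 1)) := by
      rw [Real.exp_add, Real.exp_log hT0]
    have e2 : ε * Real.exp (1 / y * (σ * ((T - 1) * Real.log 2) / 2)) =
        Real.exp (Real.log ε + 1 / y * (σ * ((T - 1) * Real.log 2) / 2)) := by
      rw [Real.exp_add, Real.exp_log hε]
    rw [e1, e2]
    apply Real.exp_le_exp.2
    have hσp : 0 < σ := lt_of_le_of_ne hσ (Ne.symm hσ0)
    have e3 : σ * (y * (Real.log 2 / 4)) ≤ 1 / y * (σ * ((T - 1) * Real.log 2) / 2) := by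
      rw [one_div, ← div_eq_inv_mul, le_div_iff₀ hy0]
      have e4 : σ * (y * (Real.log 2 / 4)) * y = σ * Real.log 2 * (y ^ 2 / 4) := by ring
      rw [e4, hy2]
      have e5 : σ * ((T - 1) * Real.log 2) / 2 = σ * Real.log 2 * ((T - 1) / 2) := by ring
      rw [e5]
      refine mul_le_mul_of_nonneg_left (by linarith) (by positivity)
    have e6 := mul_le_mul_of_nonneg_left hB' hσ
    have e7 : -|Real.log ε| ≤ Real.log ε := neg_abs_le _
    have e8 : 0 ≤ |Real.log ε| := abs_nonneg _
    have e9 : Real.log T ≤ 2 * σ * Real.log T :=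
      le_mul_of_one_le_left (by rw [hlT]; linarith) hσ1.le
    have e10 : |Real.log ε| ≤ 2 * σ * |Real.log ε| := le_mul_of_one_le_left e8 hσ1.le
    have e11 : σ * (12 * Real.log y + (2 * |Real.log ε| + 2 * Real.log 12 + 1)) =
        2 * σ * Real.log T + 2 * σ * |Real.log ε| + σ * (2 * L + 1) := by
      rw [hL1, hlT]
      ring
    linarith
  · rw [hBd, if_neg hσ1, mul_zero]
    split_ifs
    · exact le_rfl
    · positivity

end Pool.Agent.E8helper71.SI
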